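import Pool.Agent.Run7.h81.RP.I

/-! Piece SETS of MP_6b57c7_an (project of helper81), by helper930. -/

set_option autoImplicit false

noncomputable section

open MeasureTheory Pool.Agent.Run7.h81.RP

namespace Run7.h930.RP

theorem sum2 (z : Fin 2 → ℂ) : ∑ i, ‖z i‖ ^ 2 = ‖z 0‖ ^ 2 + ‖z 1‖ ^ 2 := by
  simp [Fin.sum_univ_two]

theorem measB : MeasurableSet B := by
  apply IsClosed.measurableSet
  exact isClosed_le (by fun_prop) continuous_const

theorem measBI : MeasurableSet BI := by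
  have h : BI = B ∩ ({z | z ≠ 0} ∩ ({z | 3 / 8 * ∑ i, ‖z i‖ ^ 2 ≤ ‖z 0‖ ^ 2} ∩
      {z | ‖z 0‖ ^ 2 ≤ 5 / 8 * ∑ i, ‖z i‖ ^ 2})) := by
    exact Set.ext fun z => Iff.rfl
  rw [h]
  refine measB.inter (MeasurableSet.inter ?_ (MeasurableSet.inter ?_ ?_))
  · exact (measurableSet_singleton (0 : Fin 2 → ℂ)).compl
  · exact (isClosed_le (by fun_prop) (by fun_prop)).measurableSet
  · exact (isClosed_le (by fun_prop) (by fun_prop)).measurableSet

theorem BI_sub : BI ⊆ B := fun _ hz => hz.1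

theorem norm_le_of_B {z : Fin 2 → ℂ} (hz : z ∈ B) : ‖z‖ ≤ 1 := by
  rw [pi_norm_le_iff_of_nonneg zero_le_one]
  intro i
  have h : ‖z i‖ ^ 2 ≤ 1 := by
    refine le_trans ?_ hz
    exact Finset.single_le_sum (f := fun i => ‖z i‖ ^ 2) (fun i _ => sq_nonneg _) (Finset.mem_univ i)
  nlinarith [norm_nonneg (z i)]

theorem volB : volume B < ⊤ := by
  refine lt_of_le_of_lt (measure_mono (t := Metric.closedBall (0 : Fin 2 → ℂ) 1) ?_)
    measure_closedBall_lt_top
  intro z hz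
  rw [mem_closedBall_zero_iff]
  exact norm_le_of_B hz

theorem volBI : 0 < volume BI := by
  have hopen : IsOpen {z : Fin 2 → ℂ | ∑ i, ‖z i‖ ^ 2 < 1 ∧
      3 / 8 * ∑ i, ‖z i‖ ^ 2 < ‖z 0‖ ^ 2 ∧ ‖z 0‖ ^ 2 < 5 / 8 * ∑ i, ‖z i‖ ^ 2} := by
    refine IsOpen.and ?_ (IsOpen.and ?_ ?_)
    · exact isOpen_lt (by fun_prop) continuous_const
    · exact isOpen_lt (by fun_prop) (by fun_prop)
    · exact isOpen_lt (by fun_prop) (by fun_prop)
  refine lt_of_lt_of_le (hopen.measure_pos volume ?_) (measure_mono ?_)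
  · refine ⟨fun _ => 1 / 2, ?_⟩
    simp only [Set.mem_ofPred_eq, sum2]
    norm_num
  · rintro z ⟨h1, h2, h3⟩
    refine ⟨h1.le, ?_, h2.le, h3.le⟩
    rintro rfl
    simp at h2

theorem sqrt_pos_of {z : Fin 2 → ℂ} (hz : z ≠ 0) : 0 < ∑ i, ‖z i‖ ^ 2 := by
  obtain ⟨i, hi⟩ := Function.ne_iff.1 hz
  have h : 0 < ‖z i‖ ^ 2 := by
    have : 0 < ‖z i‖ := norm_pos_iff.2 (by simpa using hi)
    positivity
  refine lt_of_lt_of_le h ?_
  exact Finset.single_le_sum (f := fun i => ‖z i‖ ^ 2) (fun i _ => sq_nonneg _) (Finset.mem_univ i)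

theorem norm_u_sq (z : Fin 2 → ℂ) (i : Fin 2) : ‖u z i‖ ^ 2 = ‖z i‖ ^ 2 / ∑ j, ‖z j‖ ^ 2 := by
  have h0 : 0 ≤ ∑ j, ‖z j‖ ^ 2 := Finset.sum_nonneg fun _ _ => sq_nonneg _
  rw [u, norm_div, div_pow, Complex.norm_real, Real.norm_of_nonneg (Real.sqrt_nonneg _),
    Real.sq_sqrt h0]

theorem u_mem {z : Fin 2 → ℂ} (hz : z ≠ 0) : u z ∈ Sph := by
  have h := sqrt_pos_of hz
  show ‖u z 0‖ ^ 2 + ‖u z 1‖ ^ 2 = 1
  rw [norm_u_sq, norm_u_sq, ← add_div, ← sum2, div_self h.ne']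

theorem u_zero : u 0 = 0 := by
  funext i; simp [u]

/-- piece SETS -/
theorem sets : S_SETS := by
  refine ⟨measB, measBI, volB, volBI, fun z hz => u_mem hz, ?_, u_zero⟩
  rintro z ⟨_, h0, h1, h2⟩
  have h := sqrt_pos_of h0
  rw [norm_u_sq]
  exact ⟨by rw [le_div_iff₀ h]; exact h1, by rw [div_le_iff₀ h]; exact h2⟩

theorem norm_u_le (z : Fin 2 → ℂ) : ‖u z‖ ≤ 1 := by
  rw [pi_norm_le_iff_of_nonneg zero_le_one]
  intro i
  by_cases hz : z = 0
  · subst hz; rw [u_zero]; simp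
  have h := sqrt_pos_of hz
  have h1 : ‖u z i‖ ^ 2 ≤ 1 := by
    rw [norm_u_sq, div_le_one h]
    exact Finset.single_le_sum (f := fun i => ‖z i‖ ^ 2) (fun i _ => sq_nonneg _)
      (Finset.mem_univ i)
  nlinarith [norm_nonneg (u z i)]

theorem meas_u : Measurable u := by
  rw [measurable_pi_iff]
  intro i
  unfold u
  refine Measurable.div (measurable_pi_apply i) ?_
  refine Complex.measurable_ofReal.comp ?_
  refine Real.continuous_sqrt.measurable.comp ?_
  exact Continuous.measurable (by fun_prop)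

/-- complex version of INT -/
theorem int_complex (F : (Fin 2 → ℂ) → ℂ) (hF : Continuous F) :
    IntegrableOn (fun z => F (u z)) B := by
  obtain ⟨C, hC⟩ := (isCompact_closedBall (0 : Fin 2 → ℂ) 1).exists_bound_of_continuousOn
    hF.continuousOn
  refine Measure.integrableOn_of_bounded (M := C) volB.ne
    (hF.measurable.comp meas_u).aestronglyMeasurable ?_
  refine Filter.Eventually.of_forall fun z => hC _ ?_
  rw [mem_closedBall_zero_iff]
  exact norm_u_le z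

/-- piece INT -/
theorem int : S_INT := by
  intro F hF
  obtain ⟨C, hC⟩ := (isCompact_closedBall (0 : Fin 2 → ℂ) 1).exists_bound_of_continuousOn
    hF.continuousOn
  refine Measure.integrableOn_of_bounded (M := C) volB.ne
    (hF.measurable.comp meas_u).aestronglyMeasurable ?_
  refine Filter.Eventually.of_forall fun z => hC _ ?_
  rw [mem_closedBall_zero_iff]
  exact norm_u_le z

end Run7.h930.RP
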