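import Pool.Agent.Run7.h81.RP.I
import Pool.Agent.Run7.h930.RP.Sets

/-! Piece MONO of MP_6b57c7_an (project of helper81), by helper930. -/

set_option autoImplicit false

noncomputable section

open MeasureTheory Pool.Agent.Run7.h81.RP

namespace Run7.h930.RP

/-- coordinatewise rotation -/
def R (ζ : Fin 2 → Circle) : (Fin 2 → ℂ) ≃ᵐ (Fin 2 → ℂ) :=
  MeasurableEquiv.piCongrRight fun i => (rotation (ζ i)).toHomeomorph.toMeasurableEquiv

theorem R_apply (ζ : Fin 2 → Circle) (z : Fin 2 → ℂ) (i : Fin 2) : R ζ z i = ζ i * z i := rfl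

theorem R_mp (ζ : Fin 2 → Circle) : MeasurePreserving (R ζ) := by
  have h : MeasurePreserving (fun (a : Fin 2 → ℂ) i => (rotation (ζ i)) (a i)) :=
    volume_preserving_pi fun i => (rotation (ζ i)).measurePreserving
  exact h

theorem norm_R (ζ : Fin 2 → Circle) (z : Fin 2 → ℂ) (i : Fin 2) : ‖R ζ z i‖ = ‖z i‖ := by
  rw [R_apply, norm_mul, Circle.norm_coe, one_mul]

theorem u_R (ζ : Fin 2 → Circle) (z : Fin 2 → ℂ) (i : Fin 2) : u (R ζ z) i = ζ i * u z i := by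
  unfold u
  simp only [norm_R]
  rw [R_apply, mul_div_assoc]

theorem R_zero_iff (ζ : Fin 2 → Circle) (z : Fin 2 → ℂ) : R ζ z = 0 ↔ z = 0 := by
  constructor
  · intro h
    funext i
    have := norm_R ζ z i
    rw [h] at this
    simpa using this.symm
  · rintro rfl
    funext i
    rw [R_apply]; simp

theorem R_B (ζ : Fin 2 → Circle) (z : Fin 2 → ℂ) : R ζ z ∈ B ↔ z ∈ B := by
  show ∑ i, ‖R ζ z i‖ ^ 2 ≤ 1 ↔ ∑ i, ‖z i‖ ^ 2 ≤ 1
  simp only [norm_R]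

theorem R_BI (ζ : Fin 2 → Circle) (z : Fin 2 → ℂ) : R ζ z ∈ BI ↔ z ∈ BI := by
  show (R ζ z ∈ B ∧ R ζ z ≠ 0 ∧ 3 / 8 * ∑ i, ‖R ζ z i‖ ^ 2 ≤ ‖R ζ z 0‖ ^ 2 ∧
      ‖R ζ z 0‖ ^ 2 ≤ 5 / 8 * ∑ i, ‖R ζ z i‖ ^ 2) ↔
    (z ∈ B ∧ z ≠ 0 ∧ 3 / 8 * ∑ i, ‖z i‖ ^ 2 ≤ ‖z 0‖ ^ 2 ∧ ‖z 0‖ ^ 2 ≤ 5 / 8 * ∑ i, ‖z i‖ ^ 2)
  simp only [norm_R, R_B, Ne, R_zero_iff]

/-- the monomial product -/
def mm (m m' : Fin 2 →₀ ℕ) (x : Fin 2 → ℂ) : ℂ :=
  (x 0 ^ m 0 * x 1 ^ m 1) * (starRingEnd ℂ) (x 0 ^ m' 0 * x 1 ^ m' 1)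

theorem int_R {S : Set (Fin 2 → ℂ)} (hS : MeasurableSet S) (ζ : Fin 2 → Circle)
    (hR : ∀ z, R ζ z ∈ S ↔ z ∈ S) (m m' : Fin 2 →₀ ℕ) :
    ∫ z in S, mm m m' (u z) =
      mm m m' (fun i => (ζ i : ℂ)) * ∫ z in S, mm m m' (u z) := by
  have h1 : ∫ z in S, mm m m' (u z) = ∫ z in S, mm m m' (u (R ζ z)) := by
    rw [← integral_indicator hS, ← integral_indicator hS,
      ← (R_mp ζ).integral_comp' (S.indicator fun z => mm m m' (u z))]
    refine integral_congr_ae (Filter.Eventually.of_forall fun z => ?_)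
    by_cases hz : z ∈ S
    · simp only [Set.indicator_of_mem hz, Set.indicator_of_mem ((hR z).2 hz)]
    · simp only [Set.indicator_of_notMem hz, Set.indicator_of_notMem (mt (hR z).1 hz)]
  have h2 : ∀ z, mm m m' (u (R ζ z)) = mm m m' (fun i => (ζ i : ℂ)) * mm m m' (u z) := by
    intro z
    simp only [mm, u_R, map_mul, map_pow]
    ring
  rw [← integral_const_mul]
  rw [h1]
  exact integral_congr_ae (Filter.Eventually.of_forall h2)

theorem exists_zeta {m m' : Fin 2 →₀ ℕ} (h : m ≠ m') :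
    ∃ ζ : Fin 2 → Circle, mm m m' (fun i => (ζ i : ℂ)) = -1 := by
  obtain ⟨i, hi⟩ := DFunLike.ne_iff.1 h
  have key : ∀ a b : ℕ, a ≠ b → ∃ c : Circle, (c : ℂ) ^ a * (starRingEnd ℂ) ((c : ℂ) ^ b) = -1 := by
    intro a b hab
    have h0 : ((a : ℝ) - b) ≠ 0 := by
      rw [sub_ne_zero]; exact_mod_cast hab
    refine ⟨Circle.exp (Real.pi / ((a : ℝ) - b)), ?_⟩
    rw [map_pow, ← Circle.coe_inv_eq_conj]
    rw [← Circle.coe_pow, ← Circle.coe_pow, ← Circle.coe_mul]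
    have : Circle.exp (Real.pi / ((a : ℝ) - b)) ^ a * (Circle.exp (Real.pi / ((a : ℝ) - b)))⁻¹ ^ b
        = Circle.exp Real.pi := by
      rw [← Circle.exp_neg, ← Circle.exp_nsmul, ← Circle.exp_nsmul, ← Circle.exp_add]
      congr 1
      simp only [nsmul_eq_mul]
      field_simp
      ring
    rw [this]
    simp
  obtain ⟨c, hc⟩ := key _ _ hi
  refine ⟨Function.update 1 i c, ?_⟩
  fin_cases i
  · simpa [mm] using hc
  · simpa [mm] using hc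

/-- piece MONO -/
theorem mono : S_MONO := by
  intro m m' h
  obtain ⟨ζ, hζ⟩ := exists_zeta h
  have h1 := int_R measBI ζ (R_BI ζ) m m'
  have h2 := int_R measB ζ (R_B ζ) m m'
  rw [hζ] at h1 h2
  have e : ∀ w : ℂ, w = -1 * w → w = 0 := by
    intro w hw
    have : 2 * w = 0 := by linear_combination hw
    simpa using this
  exact ⟨e _ h1, e _ h2⟩

end Run7.h930.RP
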